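import Pool.Agent.H664.FH.Stm

/-!
Project FH (helper664): the job CHART (helper788).
-/

set_option autoImplicit false

namespace Pool.Agent.H788.FH

open MvPolynomial Filter Topology Metric Pool.Agent.W996.EC Pool.Agent.Q72.EG
  Pool.Agent.Q251.EG.Reg Pool.Agent.H664.FH

variable {n : ℕ}

/-- one large ball -/
theorem core2 {P : MvPolynomial (Fin n) ℂ} {e : Fin n → ℝ} (hNI : NI P e)
    (ρ1 : MvPolynomial (Fin n) ℂ) (α β : MvPolynomial (Option (Fin n)) ℂ)
    (hρ1 : ∀ (u : Fin n → ℂ) (w : ℂ), eval u ρ1 = eval (oe w u) α *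
      eval (fun l => u l + w * (e l : ℂ)) P +
      eval (oe w u) β * eval (fun l => u l + w * (e l : ℂ)) (Dk e P))
    (cc : Fin n → ℂ) (ws : (Fin n → ℂ) → ℂ) (hws : Continuous ws) (cst : ℂ) (δ m S : ℝ)
    (hδ : 0 < δ) (hm : 0 < m) (hS : 0 < S)
    (h1 : ∀ u ∈ ball (0 : Fin n → ℂ) S, ∀ ω : ℂ, ‖ω - ws u‖ = δ →
      m ≤ ‖cst * eval (fun l => cc l + u l + ω * (e l : ℂ)) P‖)
    (h2 : ‖cst * eval (fun l => cc l + ws 0 * (e l : ℂ)) P‖ < m)
    (h3 : ∀ u ∈ ball (0 : Fin n → ℂ) S, eval (fun l => cc l + u l) ρ1 ≠ 0 ∧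
      eval (fun l => cc l + u l) (Phi e P).leadingCoeff ≠ 0) :
    ∃ Z : (Fin n → ℂ) → ℂ, DifferentiableOn ℂ Z (ball 0 S) ∧
      ∀ u ∈ ball (0 : Fin n → ℂ) S, eval (fun l => cc l + u l + Z u * (e l : ℂ)) P = 0 ∧
        ‖Z u - ws u‖ < δ := by
  have h0S : (0 : Fin n → ℂ) ∈ ball (0 : Fin n → ℂ) S := mem_ball_self hS
  have hself : cc ∈ ball cc S := mem_ball_self hS
  have hcst : cst ≠ 0 := by
    rintro rfl
    have := h1 0 h0S (ws 0 + δ) (by
      rw [add_sub_cancel_left, Complex.norm_real, Real.norm_of_nonneg hδ.le])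
    rw [zero_mul, norm_zero] at this
    linarith
  obtain ⟨ωs, hωs, hωs2⟩ := zero_in_disc
    (fun ω => cst * eval (fun l => cc l + ω * (e l : ℂ)) P) (by
      refine ((contDiff_ev P (fun ω : ℂ => fun l => cc l + ω * (e l : ℂ))
        fun i => ?_).differentiable (by norm_num)).const_mul _
      exact contDiff_const.add (contDiff_id.mul contDiff_const)) (ws 0) δ m hδ h2
    (fun ω hω => by
      have := h1 0 h0S ω hω
      simpa using this)
  have hzero : eval (fun l => cc l + ωs * (e l : ℂ)) P = 0 :=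
    (mul_eq_zero.1 hωs2).resolve_left hcst
  have hsub : ∀ s ∈ ball cc S, (s - cc) ∈ ball (0 : Fin n → ℂ) S := by
    intro s hs
    rw [mem_ball, dist_eq_norm] at hs
    rwa [mem_ball, dist_zero_right]
  have hcs : ∀ s : Fin n → ℂ, (fun l => cc l + (s - cc) l) = s := by
    intro s
    funext l
    simp
  obtain ⟨Z, hZ1, hZ2, hZ3⟩ := root hNI (ball cc S) isOpen_ball (convex_ball _ _) cc hself ρ1 α β
    hρ1 (fun s hs => by have := (h3 (s - cc) (hsub s hs)).1; rwa [hcs s] at this)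
    (fun s hs => by have := (h3 (s - cc) (hsub s hs)).2; rwa [hcs s] at this) ωs hzero
  have hadd : ∀ u ∈ ball (0 : Fin n → ℂ) S, (cc + u) ∈ ball cc S := by
    intro u hu
    rw [mem_ball, dist_zero_right] at hu
    rwa [mem_ball, dist_eq_norm, add_sub_cancel_left]
  have hroot : ∀ u ∈ ball (0 : Fin n → ℂ) S,
      eval (fun l => cc l + u l + Z (cc + u) * (e l : ℂ)) P = 0 := fun u hu =>
    hZ3 (cc + u) (hadd u hu)
  have hdiff : DifferentiableOn ℂ (fun u => Z (cc + u)) (ball 0 S) := by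
    refine hZ1.comp (g := Z) (f := fun u : Fin n → ℂ => cc + u) ?_ hadd
    exact ((differentiable_const cc).add differentiable_id).differentiableOn
  refine ⟨fun u => Z (cc + u), hdiff, fun u hu => ⟨hroot u hu, ?_⟩⟩
  by_contra hcon
  push Not at hcon
  have h5 : ContinuousOn (fun u => ‖Z (cc + u) - ws u‖) (ball 0 S) :=
    (hdiff.continuousOn.sub hws.continuousOn).norm
  have h6 : ‖Z (cc + 0) - ws 0‖ < δ := by
    rw [add_zero, hZ2]
    exact hωs
  obtain ⟨v, hv1, hv2⟩ := (convex_ball (0 : Fin n → ℂ) S).isPreconnected.intermediate_value h0S hu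
    h5 ⟨h6.le, hcon⟩
  have h7 := h1 v hv1 (Z (cc + v)) hv2
  rw [hroot v hv1, mul_zero, norm_zero] at h7
  linarith

/-- `P` is not invariant in a direction `e` with `α·e = 1` -/
theorem ni_of_flat {P : MvPolynomial (Fin n) ℂ} {α e : Fin n → ℝ} {f : Polynomial ℂ}
    (hαe : ∑ l, α l * e l = 1) (hf : 1 ≤ f.natDegree) {D L : ℝ}
    (hlim : ∀ t : ℝ, L ≤ t → ∃ (k : Fin n → ℝ) (c : ℂ), ‖k‖ ≤ t ^ D ∧
      ∀ x : Fin n → ℂ, ‖x‖ ≤ t →
        ‖c * eval (fun i => x i + Complex.I * (k i : ℂ)) P -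
          f.eval (∑ l, (α l : ℂ) * x l)‖ ≤ t⁻¹) : NI P e := by
  by_contra hcon
  unfold NI at hcon
  push Not at hcon
  have hαe' : ∑ l, (α l : ℂ) * (e l : ℂ) = 1 := by exact_mod_cast hαe
  have hconst : ∀ ω : ℂ, f.eval ω = f.eval 0 := by
    intro ω
    by_contra hne
    have hpos : 0 < ‖f.eval ω - f.eval 0‖ := norm_pos_iff.2 (sub_ne_zero.2 hne)
    set t := max (max L (‖ω‖ * ‖e‖ + 1)) (2 / ‖f.eval ω - f.eval 0‖ + 1) with ht
    have ht1 : L ≤ t := (le_max_left _ _).trans (le_max_left _ _)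
    have ht2 : ‖ω‖ * ‖e‖ + 1 ≤ t := (le_max_right _ _).trans (le_max_left _ _)
    have ht3 : 2 / ‖f.eval ω - f.eval 0‖ + 1 ≤ t := le_max_right _ _
    have ht0 : 0 < t := by
      have : 0 ≤ ‖ω‖ * ‖e‖ := by positivity
      linarith
    obtain ⟨k, c, -, hk⟩ := hlim t ht1
    have h1 := hk 0 (by rw [norm_zero]; exact ht0.le)
    have h2 := hk (fun l => ω * (e l : ℂ)) (by
      rw [pi_norm_le_iff_of_nonneg ht0.le]
      intro i
      rw [norm_mul, Complex.norm_real]
      have := norm_le_pi_norm e i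
      have h3 : ‖ω‖ * ‖e i‖ ≤ ‖ω‖ * ‖e‖ := mul_le_mul_of_nonneg_left this (norm_nonneg _)
      linarith)
    have e1 : eval (fun i => ω * (e i : ℂ) + Complex.I * (k i : ℂ)) P =
        eval (fun i => (0 : Fin n → ℂ) i + Complex.I * (k i : ℂ)) P := by
      rw [← hcon (fun i => (0 : Fin n → ℂ) i + Complex.I * (k i : ℂ)) ω]
      congr 1
      apply congrArg
      funext i
      simp only [Pi.zero_apply]
      ring
    have e2 : ∑ l, (α l : ℂ) * (ω * (e l : ℂ)) = ω := by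
      calc ∑ l, (α l : ℂ) * (ω * (e l : ℂ)) = ω * ∑ l, (α l : ℂ) * (e l : ℂ) := by
            rw [Finset.mul_sum]
            refine Finset.sum_congr rfl fun l _ => ?_
            ring
        _ = ω := by rw [hαe', mul_one]
    have e3 : ∑ l, (α l : ℂ) * (0 : Fin n → ℂ) l = 0 := by simp
    rw [e1, e2] at h2
    rw [e3] at h1
    have h3 : ‖f.eval ω - f.eval 0‖ ≤ t⁻¹ + t⁻¹ := by
      calc ‖f.eval ω - f.eval 0‖ =
          ‖(c * eval (fun i => (0 : Fin n → ℂ) i + Complex.I * (k i : ℂ)) P - f.eval 0) -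
            (c * eval (fun i => (0 : Fin n → ℂ) i + Complex.I * (k i : ℂ)) P - f.eval ω)‖ := by
            congr 1; ring
        _ ≤ _ := (norm_sub_le _ _).trans (add_le_add h1 h2)
    have h4 : t⁻¹ * t = 1 := inv_mul_cancel₀ ht0.ne'
    have h5 : ‖f.eval ω - f.eval 0‖ * t ≤ 2 := by
      calc ‖f.eval ω - f.eval 0‖ * t ≤ (t⁻¹ + t⁻¹) * t := mul_le_mul_of_nonneg_right h3 ht0.le
        _ = 2 := by rw [add_mul, h4]; norm_num
    have h6 : 2 < ‖f.eval ω - f.eval 0‖ * t := by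
      have h7 : 2 / ‖f.eval ω - f.eval 0‖ < t := by linarith
      rw [div_lt_iff₀ hpos] at h7
      linarith
    linarith
  have h1 : f = Polynomial.C (f.eval 0) := by
    apply Polynomial.funext
    intro ω
    rw [Polynomial.eval_C, hconst ω]
  rw [h1, Polynomial.natDegree_C] at hf
  omega

/-- a circle of small radius without zeros -/
theorem circle {f : Polynomial ℂ} (hf : f ≠ 0) (r₀ : ℂ) {ε : ℝ} (hε : 0 < ε) :
    ∃ δ m : ℝ, 0 < δ ∧ δ < ε ∧ 0 < m ∧ ∀ z : ℂ, ‖z‖ = δ → m ≤ ‖f.eval (r₀ + z)‖ := by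
  have hfin : ((fun z => ‖z - r₀‖) '' (f.roots.toFinset : Set ℂ)).Finite :=
    (Finset.finite_toSet _).image _
  obtain ⟨δ, hδ1, hδ2⟩ := (Set.Ioo_infinite hε).exists_notMem_finite hfin
  have hcont : Continuous fun z : ℂ => ‖f.eval (r₀ + z)‖ := by fun_prop
  obtain ⟨zm, hzm, hmin⟩ := (isCompact_sphere (0 : ℂ) δ).exists_isMinOn
    (NormedSpace.sphere_nonempty.2 hδ1.1.le) hcont.continuousOn
  refine ⟨δ, ‖f.eval (r₀ + zm)‖, hδ1.1, hδ1.2, ?_, fun z hz => ?_⟩
  · rw [norm_pos_iff]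
    intro h
    apply hδ2
    refine ⟨r₀ + zm, ?_, ?_⟩
    · simp only [Finset.mem_coe, Multiset.mem_toFinset]
      rw [Polynomial.mem_roots hf]
      exact h
    · simp only [add_sub_cancel_left]
      rwa [mem_sphere, dist_zero_right] at hzm
  · exact hmin (by rw [mem_sphere, dist_zero_right]; exact hz)

/-- the fourth power of the logarithm is small -/
theorem ev_log (K η : ℝ) (hη : 0 < η) :
    ∀ᶠ l : ℝ in atTop, K * Real.log (l * l) ^ 3 ≤ η * l := by
  have h1 : (fun x : ℝ => Real.log x ^ 3) =o[atTop] id := Real.isLittleO_pow_log_id_atTop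
  have hK : 0 < η / (8 * (|K| + 1)) := by positivity
  filter_upwards [h1.bound hK, eventually_ge_atTop 1] with l hl hl1
  have hlog : 0 ≤ Real.log l := Real.log_nonneg hl1
  rw [Real.norm_of_nonneg (by positivity), id, Real.norm_of_nonneg (by linarith)] at hl
  have h2 : Real.log (l * l) = 2 * Real.log l := by
    rw [Real.log_mul (by positivity) (by positivity)]; ring
  rw [h2]
  have h3 : K * (2 * Real.log l) ^ 3 = 8 * K * Real.log l ^ 3 := by ring
  rw [h3]
  have h4 : 8 * K * Real.log l ^ 3 ≤ 8 * (|K| + 1) * Real.log l ^ 3 := by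
    apply mul_le_mul_of_nonneg_right _ (by positivity)
    linarith [le_abs_self K]
  refine h4.trans ?_
  calc 8 * (|K| + 1) * Real.log l ^ 3 ≤ 8 * (|K| + 1) * (η / (8 * (|K| + 1)) * l) :=
        mul_le_mul_of_nonneg_left hl (by positivity)
    _ = η * l := by
        field_simp

theorem chart : S_chart := by
  intro n P α f hP hα hf hlim
  -- the direction
  have hs0 : 0 < ∑ l, α l ^ 2 := by
    obtain ⟨i, hi⟩ := Function.ne_iff.1 hα
    have h1 : α i ^ 2 ≤ ∑ l, α l ^ 2 :=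
      Finset.single_le_sum (f := fun l => α l ^ 2) (fun _ _ => sq_nonneg _) (Finset.mem_univ i)
    have h2 : 0 < α i ^ 2 := by
      have : α i ≠ 0 := hi
      positivity
    linarith
  set e : Fin n → ℝ := fun l => α l / ∑ l, α l ^ 2 with he
  have hαe : ∑ l, α l * e l = 1 := by
    calc ∑ l, α l * e l = (∑ l, α l ^ 2) / ∑ l, α l ^ 2 := by
          rw [Finset.sum_div]
          refine Finset.sum_congr rfl fun l _ => ?_
          simp only [he]
          ring
      _ = 1 := div_self hs0.ne'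
  have hαe' : ∑ l, (α l : ℂ) * (e l : ℂ) = 1 := by exact_mod_cast hαe
  clear_value e
  obtain ⟨D0, L, hlim⟩ := hlim
  have hNI : NI P e := ni_of_flat hαe hf hlim
  have hf0 : f ≠ 0 := by
    rintro rfl
    simp at hf
  obtain ⟨r₀, hr₀⟩ : ∃ r₀, f.IsRoot r₀ := by
    apply IsAlgClosed.exists_root
    rw [Polynomial.degree_eq_natDegree hf0]
    exact_mod_cast (by omega : f.natDegree ≠ 0)
  have hr₀' : f.eval r₀ = 0 := hr₀
  refine ⟨e, ‖r₀‖, hαe, fun R hR => ?_⟩
  obtain ⟨ρ0, α0, β0, hρ0, hE0⟩ := Pool.Agent.Q252.EG.elim n P R e hP hNI hR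
  obtain ⟨ρ1, α1, β1, hρ1, hE1⟩ := Pool.Agent.Q252.EG.elim n P (Dk e P) e hP hNI (dk_ndvd hNI)
  have hρ2 : (Phi e P).leadingCoeff ≠ 0 := by
    rw [Ne, Polynomial.leadingCoeff_eq_zero]
    intro h
    apply natDegree_Phi hNI
    rw [h, Polynomial.natDegree_zero]
  set ρ2 := (Phi e P).leadingCoeff with hρ2d
  -- the sequences
  set t : ℕ → ℝ := fun j => max L 4 + j with ht
  have htL : ∀ j, L ≤ t j := fun j => by
    have : (0 : ℝ) ≤ j := Nat.cast_nonneg j
    have := le_max_left L 4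
    simp only [ht]
    linarith
  have ht4 : ∀ j, 4 ≤ t j := fun j => by
    have : (0 : ℝ) ≤ j := Nat.cast_nonneg j
    have := le_max_right L 4
    simp only [ht]
    linarith
  have htt : Tendsto t atTop atTop := tendsto_atTop_add_const_left _ _ tendsto_natCast_atTop_atTop
  choose k c hk hkc using fun j => hlim (t j) (htL j)
  have hsq : ∀ j, Real.sqrt (t j) * Real.sqrt (t j) = t j := fun j =>
    Real.mul_self_sqrt (by linarith [ht4 j])
  have hsq1 : ∀ j, 1 ≤ Real.sqrt (t j) := fun j => by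
    rw [Real.one_le_sqrt]
    linarith [ht4 j]
  have hst : Tendsto (fun j => Real.sqrt (t j)) atTop atTop :=
    Real.tendsto_sqrt_atTop.comp htt
  obtain ⟨φ, c', ρ', D1, hφ, hρ', hconv', hc'⟩ := Pool.Agent.Q252.EG.norm n (ρ0 * (ρ1 * ρ2))
    (fun j => Real.sqrt (t j)) k (mul_ne_zero hρ0 (mul_ne_zero hρ1 hρ2)) hsq1
  obtain ⟨κ, -, hκ2⟩ := perturb hρ' 0 one_pos
  obtain ⟨m3, η, hm3, hη, hnear3⟩ := near3 _ hκ2
  set zκ : Fin n → ℂ := fun i => Complex.I * (κ i : ℂ) with hzκ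
  obtain ⟨Dβ, hDβ0, hDβ⟩ := growth β0
  obtain ⟨D12, hD120, hD12⟩ := growth (ρ1 * ρ2)
  set E : ℝ := max D0 1 + 2 with hE
  have hE1' : 1 ≤ E := by
    have := le_max_right D0 1
    linarith
  refine ⟨E + (E * |D1| + E * Dβ + E * D12 + 1), fun K => ?_⟩
  set DD : ℝ := E + (E * |D1| + E * Dβ + E * D12 + 1) with hDD
  set K' : ℝ := max K 1 with hK'
  have hK'1 : 1 ≤ K' := le_max_right _ _
  have hK'0 : 0 < K' := by linarith
  obtain ⟨δ, m0, hδ, hδK, hm0, hcirc⟩ := circle hf0 r₀ (show (0 : ℝ) < 1 / K' by positivity)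
  have hδ1 : δ ≤ 1 := by
    have : 1 / K' ≤ 1 := by rw [div_le_one hK'0]; exact hK'1
    linarith
  -- constants
  set A : ℝ := ∑ l, |α l| with hA
  have hA0 : 0 ≤ A := Finset.sum_nonneg fun _ _ => abs_nonneg _
  set ακ : ℝ := ∑ l, α l * κ l with hακ
  set M0 : ℝ := ‖r₀‖ + A * η + |ακ| + 1 with hM0
  have hM00 : 0 ≤ M0 := by positivity
  set CC : ℝ := ‖κ‖ + η + M0 * ‖e‖ with hCC
  have hCC0 : 0 ≤ CC := by positivity
  set Bz : ℝ := ‖zκ‖ + η with hBz
  have e1 := unif hconv' Bz (show (0 : ℝ) < m3 / 2 by positivity)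
  have hψt := hst.comp hφ.tendsto_atTop
  have e2 := hψt.eventually (ev_log K' η hη)
  have e3 := hψt.eventually (eventually_ge_atTop (max (max K CC) (max M0 (max (2 / m3) (2 / m0 + 1)))))
  obtain ⟨j, f1, f2, f3⟩ := (e1.and (e2.and e3)).exists
  simp only [Function.comp] at f2 f3
  have f4 := hc' j
  have f5 := hsq (φ j)
  have f6 := hsq1 (φ j)
  have f7 := hk (φ j)
  have f8 := hkc (φ j)
  have f9 := ht4 (φ j)
  change ‖c' j‖ ≤ (2 + Real.sqrt (t (φ j)) + ‖k (φ j)‖) ^ D1 at f4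
  change ∀ x : Fin n → ℂ, ‖x‖ ≤ Bz → ‖eval x (C (c' j) * tr (Real.sqrt (t (φ j))) (k (φ j))
    (ρ0 * (ρ1 * ρ2))) - eval x ρ'‖ ≤ m3 / 2 at f1
  clear e1 e2 e3 hψt
  generalize Real.sqrt (t (φ j)) = l at *
  generalize t (φ j) = T at *
  generalize k (φ j) = kk at *
  generalize c (φ j) = cs at *
  generalize c' j = cs' at *
  have hl0 : 0 < l := by linarith
  have hlC : (l : ℂ) ≠ 0 := by exact_mod_cast hl0.ne'
  have hT0 : 0 < T := by linarith
  have hT1 : 1 ≤ T := by linarith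
  have g1 : K ≤ l := (le_max_left _ _).trans ((le_max_left _ _).trans f3)
  have g2 : CC ≤ l := (le_max_right _ _).trans ((le_max_left _ _).trans f3)
  have g3 : M0 ≤ l := (le_max_left _ _).trans ((le_max_right _ _).trans f3)
  have g4 : 2 / m3 ≤ l := (le_max_left _ _).trans ((le_max_right _ _).trans
    ((le_max_right _ _).trans f3))
  have g5 : 2 / m0 + 1 ≤ l := (le_max_right _ _).trans ((le_max_right _ _).trans
    ((le_max_right _ _).trans f3))
  have hlT : l ≤ T := by rw [← f5]; nlinarith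
  rw [f5] at f2
  -- powers of `T`
  set Q : ℝ := T ^ (max D0 1) with hQ
  have hQT : T ≤ Q := by
    calc T = T ^ (1 : ℝ) := (Real.rpow_one T).symm
      _ ≤ Q := Real.rpow_le_rpow_of_exponent_le hT1 (le_max_right _ _)
  have hkQ : ‖kk‖ ≤ Q := f7.trans (Real.rpow_le_rpow_of_exponent_le hT1 (le_max_left _ _))
  have hQE : T ^ E = Q * T ^ 2 := by
    rw [hE, Real.rpow_add hT0, Real.rpow_two]
  have h3Q : 3 * Q ≤ T ^ E := by
    have hQ0 : 0 < Q := by linarith
    have h3 : 3 ≤ T ^ 2 := by nlinarith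
    rw [hQE, mul_comm 3 Q]
    exact mul_le_mul_of_nonneg_left h3 hQ0.le
  have hTE1 : 1 ≤ T ^ E := by nlinarith
  have hTE2 : 2 ≤ T ^ E := by nlinarith
  have hW : 2 + l + ‖kk‖ ≤ T ^ E := by linarith
  have hcs' : ‖cs'‖ ≤ T ^ (E * |D1|) := by
    refine f4.trans ?_
    have h1 : 1 ≤ 2 + l + ‖kk‖ := by
      have := norm_nonneg kk
      linarith
    calc (2 + l + ‖kk‖) ^ D1 ≤ (2 + l + ‖kk‖) ^ |D1| :=
          Real.rpow_le_rpow_of_exponent_le h1 (le_abs_self _)
      _ ≤ (T ^ E) ^ |D1| := Real.rpow_le_rpow (by linarith) hW (abs_nonneg _)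
      _ = T ^ (E * |D1|) := (Real.rpow_mul hT0.le _ _).symm
  -- centre
  set cc : Fin n → ℂ := fun i => Complex.I * ((kk i + l * κ i : ℝ) : ℂ) with hcc
  set ws : (Fin n → ℂ) → ℂ := fun u => r₀ - ∑ i, (α i : ℂ) * u i - Complex.I * ((l * ακ : ℝ) : ℂ)
    with hws
  have hwsc : Continuous ws := by
    simp only [hws]
    fun_prop
  have hlin : ∀ u : Fin n → ℂ, ‖∑ i, (α i : ℂ) * u i‖ ≤ A * ‖u‖ := by
    intro u
    refine (norm_sum_le _ _).trans ?_
    rw [hA, Finset.sum_mul]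
    refine Finset.sum_le_sum fun i _ => ?_
    rw [norm_mul, Complex.norm_real, Real.norm_eq_abs]
    exact mul_le_mul_of_nonneg_left (norm_le_pi_norm u i) (abs_nonneg _)
  have hωb : ∀ u : Fin n → ℂ, ‖u‖ ≤ η * l → ∀ ω : ℂ, ‖ω - ws u‖ ≤ δ → ‖ω‖ ≤ M0 * l := by
    intro u hu ω hω
    have h1 : ‖ω‖ ≤ ‖ω - ws u‖ + ‖ws u‖ := by
      calc ‖ω‖ = ‖(ω - ws u) + ws u‖ := by rw [sub_add_cancel]
        _ ≤ _ := norm_add_le _ _
    have h2 : ‖ws u‖ ≤ ‖r₀‖ + A * (η * l) + l * |ακ| := by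
      simp only [hws]
      refine (norm_sub_le _ _).trans (add_le_add ((norm_sub_le _ _).trans (add_le_add le_rfl
        ((hlin u).trans (mul_le_mul_of_nonneg_left hu hA0)))) ?_)
      rw [norm_mul, Complex.norm_I, one_mul, Complex.norm_real, Real.norm_eq_abs, abs_mul,
        abs_of_pos hl0]
    have h3 : ‖r₀‖ ≤ ‖r₀‖ * l := le_mul_of_one_le_right (norm_nonneg _) f6
    rw [hM0]
    nlinarith
  have hxb : ∀ u : Fin n → ℂ, ‖u‖ ≤ η * l → ∀ ω : ℂ, ‖ω‖ ≤ M0 * l →
      ‖(fun i => Complex.I * ((l * κ i : ℝ) : ℂ) + u i + ω * (e i : ℂ) : Fin n → ℂ)‖ ≤ CC * l := by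
    intro u hu ω hω
    rw [pi_norm_le_iff_of_nonneg (by positivity)]
    intro i
    refine (norm_add₃_le).trans ?_
    rw [norm_mul, Complex.norm_I, one_mul, Complex.norm_real, Real.norm_eq_abs, abs_mul,
      abs_of_pos hl0, norm_mul, Complex.norm_real]
    have h1 : l * |κ i| ≤ l * ‖κ‖ := mul_le_mul_of_nonneg_left (norm_le_pi_norm κ i) hl0.le
    have h2 : ‖u i‖ ≤ η * l := (norm_le_pi_norm u i).trans hu
    have h3 : ‖ω‖ * ‖e i‖ ≤ (M0 * l) * ‖e‖ :=
      mul_le_mul hω (norm_le_pi_norm e i) (norm_nonneg _) (by positivity)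
    rw [hCC]
    nlinarith
  have key : ∀ u : Fin n → ℂ, ‖u‖ ≤ η * l → ∀ ω : ℂ, ‖ω - ws u‖ ≤ δ →
      ‖cs * eval (fun i => cc i + u i + ω * (e i : ℂ)) P - f.eval (r₀ + (ω - ws u))‖ ≤ T⁻¹ := by
    intro u hu ω hω
    have h1 := f8 (fun i => Complex.I * ((l * κ i : ℝ) : ℂ) + u i + ω * (e i : ℂ))
      ((hxb u hu ω (hωb u hu ω hω)).trans (by rw [← f5]; gcongr))
    have h2 : (fun i => (Complex.I * ((l * κ i : ℝ) : ℂ) + u i + ω * (e i : ℂ)) +
        Complex.I * (kk i : ℂ)) = fun i => cc i + u i + ω * (e i : ℂ) := by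
      funext i
      simp only [hcc]
      push_cast
      ring
    have h3 : ∑ i, (α i : ℂ) * (Complex.I * ((l * κ i : ℝ) : ℂ) + u i + ω * (e i : ℂ)) =
        r₀ + (ω - ws u) := by
      have h4 : ∑ i, (α i : ℂ) * (Complex.I * ((l * κ i : ℝ) : ℂ) + u i + ω * (e i : ℂ)) =
          Complex.I * ((l * ακ : ℝ) : ℂ) + ∑ i, (α i : ℂ) * u i +
            ω * ∑ i, (α i : ℂ) * (e i : ℂ) := by
        rw [hακ, Finset.mul_sum, Complex.ofReal_sum, Finset.mul_sum, Finset.mul_sum,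
          ← Finset.sum_add_distrib, ← Finset.sum_add_distrib]
        refine Finset.sum_congr rfl fun i _ => ?_
        push_cast
        ring
      rw [h4, hαe']
      simp only [hws]
      ring
    rw [h2, h3] at h1
    exact h1
  -- lower bound of `ρ`
  have hρlow : ∀ u : Fin n → ℂ, ‖u‖ ≤ η * l →
      m3 / 2 ≤ T ^ (E * |D1|) * ‖eval (fun i => cc i + u i) (ρ0 * (ρ1 * ρ2))‖ := by
    intro u hu
    set z : Fin n → ℂ := fun i => zκ i + u i / l with hz
    have hzz : ‖z - zκ‖ ≤ η := by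
      rw [pi_norm_le_iff_of_nonneg hη.le]
      intro i
      simp only [hz, Pi.sub_apply, add_sub_cancel_left]
      rw [norm_div, Complex.norm_real, Real.norm_of_nonneg hl0.le, div_le_iff₀ hl0]
      exact (norm_le_pi_norm u i).trans hu
    have hzB : ‖z‖ ≤ Bz := by
      calc ‖z‖ = ‖zκ + (z - zκ)‖ := by rw [add_sub_cancel]
        _ ≤ _ := (norm_add_le _ _).trans (by rw [hBz]; linarith)
    have h3 := f1 z hzB
    have h4 := hnear3 z hzz
    have hzu : (fun i => (l : ℂ) * z i + Complex.I * (kk i : ℂ)) = fun i => cc i + u i := by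
      funext i
      simp only [hz, hzκ, hcc]
      field_simp
      push_cast
      ring
    rw [map_mul, eval_C, eval_tr, hzu] at h3
    have h5 : ‖eval z ρ'‖ ≤ ‖cs' * eval (fun i => cc i + u i) (ρ0 * (ρ1 * ρ2))‖ + m3 / 2 := by
      calc ‖eval z ρ'‖ = ‖cs' * eval (fun i => cc i + u i) (ρ0 * (ρ1 * ρ2)) -
              (cs' * eval (fun i => cc i + u i) (ρ0 * (ρ1 * ρ2)) - eval z ρ')‖ := by
              rw [sub_sub_cancel]
        _ ≤ _ := (norm_sub_le _ _).trans (add_le_add le_rfl h3)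
    rw [norm_mul] at h5
    have h6 := mul_le_mul_of_nonneg_right hcs' (norm_nonneg
      (eval (fun i => cc i + u i) (ρ0 * (ρ1 * ρ2))))
    linarith
  have hρne : ∀ u : Fin n → ℂ, ‖u‖ ≤ η * l →
      eval (fun i => cc i + u i) (ρ0 * (ρ1 * ρ2)) ≠ 0 := by
    intro u hu h3
    have h4 := hρlow u hu
    rw [h3, norm_zero, mul_zero] at h4
    linarith
  have hTinv : T⁻¹ < m0 / 2 := by
    have h1 : 2 / m0 < T := by linarith
    rw [div_lt_iff₀ hm0] at h1
    rw [inv_lt_comm₀ hT0 (by positivity), inv_div, div_lt_iff₀ hm0]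
    linarith
  have hlogT : 0 < Real.log T := Real.log_pos (by linarith)
  have hS0 : 0 < K' * Real.log T ^ 3 := by positivity
  have hball : ∀ u ∈ ball (0 : Fin n → ℂ) (K' * Real.log T ^ 3), ‖u‖ ≤ η * l := by
    intro u hu
    rw [mem_ball, dist_zero_right] at hu
    exact hu.le.trans f2
  obtain ⟨Z, hZ1, hZ2⟩ := core2 hNI ρ1 α1 β1 hE1 cc ws hwsc cs δ (m0 / 2) (K' * Real.log T ^ 3) hδ
    (by positivity) hS0
    (by
      intro u hu ω hω
      have h1 := key u (hball u hu) ω hω.le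
      have h2 := hcirc (ω - ws u) hω
      have h3 := norm_sub_norm_le (f.eval (r₀ + (ω - ws u)))
        (cs * eval (fun i => cc i + u i + ω * (e i : ℂ)) P)
      rw [norm_sub_rev] at h3
      linarith)
    (by
      have h1 := key 0 (by rw [norm_zero]; positivity) (ws 0) (by
        rw [sub_self, norm_zero]; exact hδ.le)
      rw [sub_self, add_zero, hr₀', sub_zero] at h1
      have h2 : (fun i => cc i + (0 : Fin n → ℂ) i + ws 0 * (e i : ℂ)) =
          fun i => cc i + ws 0 * (e i : ℂ) := by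
        funext i
        simp
      rw [h2] at h1
      linarith)
    (by
      intro u hu
      have h3 := hρne u (hball u hu)
      rw [map_mul, map_mul] at h3
      exact ⟨left_ne_zero_of_mul (right_ne_zero_of_mul h3),
        right_ne_zero_of_mul (right_ne_zero_of_mul h3)⟩)
  have hKK : K * Real.log T ^ 3 ≤ K' * Real.log T ^ 3 :=
    mul_le_mul_of_nonneg_right (le_max_left _ _) (by positivity)
  refine ⟨T, g1.trans hlT, by linarith, fun i => kk i + l * κ i - l * ακ * e i, r₀,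
    fun u => Z u + Complex.I * ((l * ακ : ℝ) : ℂ), le_rfl,
    (hZ1.mono (ball_subset_ball hKK)).add_const _, fun u hu => ?_⟩
  have hu' := ball_subset_ball hKK hu
  have hub := hball u hu'
  obtain ⟨hz1, hz2⟩ := hZ2 u hu'
  have hcp : cp (fun i => kk i + l * κ i - l * ακ * e i) e
      (fun u => Z u + Complex.I * ((l * ακ : ℝ) : ℂ)) u =
      fun i => cc i + u i + Z u * (e i : ℂ) := by
    funext i
    simp only [cp, hcc]
    push_cast
    ring
  rw [hcp]
  have hZb := hωb u hub (Z u) hz2.le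
  have hx := hxb u hub (Z u) hZb
  have hCCT : CC * l ≤ T := by rw [← f5]; gcongr
  refine ⟨hz1, ?_, ?_, ?_⟩
  · have h1 : Z u + Complex.I * ((l * ακ : ℝ) : ℂ) + ∑ i, (α i : ℂ) * u i - r₀ = Z u - ws u := by
      simp only [hws]
      ring
    rw [h1]
    have h2 : K * ‖Z u - ws u‖ ≤ K' * ‖Z u - ws u‖ :=
      mul_le_mul_of_nonneg_right (le_max_left _ _) (norm_nonneg _)
    have h3 : K' * ‖Z u - ws u‖ ≤ K' * (1 / K') :=
      mul_le_mul_of_nonneg_left (hz2.le.trans hδK.le) hK'0.le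
    have h4 : K' * (1 / K') = 1 := by field_simp
    linarith
  · have h1 : ‖(fun i => cc i + u i + Z u * (e i : ℂ) : Fin n → ℂ)‖ ≤ CC * l + ‖kk‖ := by
      rw [pi_norm_le_iff_of_nonneg (by positivity)]
      intro i
      have h2 : cc i + u i + Z u * (e i : ℂ) =
          (Complex.I * ((l * κ i : ℝ) : ℂ) + u i + Z u * (e i : ℂ)) + Complex.I * (kk i : ℂ) := by
        simp only [hcc]
        push_cast
        ring
      rw [h2]
      refine (norm_add_le _ _).trans (add_le_add ?_ ?_)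
      · exact (norm_le_pi_norm (fun i => Complex.I * ((l * κ i : ℝ) : ℂ) + u i +
          Z u * (e i : ℂ) : Fin n → ℂ) i).trans hx
      · rw [norm_mul, Complex.norm_I, one_mul, Complex.norm_real]
        exact norm_le_pi_norm kk i
    have h2 : T ^ E ≤ T ^ DD := by
      apply Real.rpow_le_rpow_of_exponent_le hT1
      rw [hDD]
      have : 0 ≤ E * |D1| + E * Dβ + E * D12 + 1 := by positivity
      linarith
    linarith
  · have h8 := hE0 (fun i => cc i + u i) (Z u)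
    rw [hz1, mul_zero, zero_add] at h8
    have h9 := hρlow u hub
    rw [map_mul, h8, norm_mul, norm_mul] at h9
    have hsb : ‖(fun i => cc i + u i : Fin n → ℂ)‖ ≤ T ^ E := by
      have h1 : ‖(fun i => cc i + u i : Fin n → ℂ)‖ ≤ CC * l + ‖kk‖ := by
        rw [pi_norm_le_iff_of_nonneg (by positivity)]
        intro i
        have h2 : cc i + u i =
            (Complex.I * ((l * κ i : ℝ) : ℂ) + u i + 0 * (e i : ℂ)) + Complex.I * (kk i : ℂ) := by
          simp only [hcc]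
          push_cast
          ring
        rw [h2]
        refine (norm_add_le _ _).trans (add_le_add ?_ ?_)
        · exact (norm_le_pi_norm (fun i => Complex.I * ((l * κ i : ℝ) : ℂ) + u i +
            0 * (e i : ℂ) : Fin n → ℂ) i).trans (hxb u hub 0 (by rw [norm_zero]; positivity))
        · rw [norm_mul, Complex.norm_I, one_mul, Complex.norm_real]
          exact norm_le_pi_norm kk i
      linarith
    have hZE : ‖Z u‖ ≤ T ^ E := by
      have : M0 * l ≤ T := by rw [← f5]; gcongr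
      linarith
    have hsq2 : ∀ x : ℝ, x ≤ T ^ E → x ≤ (T ^ E) ^ 2 := by
      intro x hx
      nlinarith
    have h10 : ‖eval (oe (Z u) (fun i => cc i + u i)) β0‖ ≤ T ^ (E * Dβ) := by
      rw [Real.rpow_mul hT0.le]
      refine hDβ (T ^ E) hTE2 _ ?_
      rw [pi_norm_le_iff_of_nonneg (by positivity)]
      intro i
      rcases i with _ | i
      · exact hsq2 _ hZE
      · exact hsq2 _ ((norm_le_pi_norm (fun i => cc i + u i : Fin n → ℂ) i).trans hsb)
    have h11 : ‖eval (fun i => cc i + u i) (ρ1 * ρ2)‖ ≤ T ^ (E * D12) := by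
      rw [Real.rpow_mul hT0.le]
      exact hD12 (T ^ E) hTE2 _ (hsq2 _ hsb)
    set X := ‖eval (fun i => cc i + u i + Z u * (e i : ℂ)) R‖ with hX
    have hX0 : 0 ≤ X := norm_nonneg _
    have h12 : m3 / 2 ≤ T ^ (E * |D1| + E * Dβ + E * D12) * X := by
      refine h9.trans ?_
      rw [Real.rpow_add hT0, Real.rpow_add hT0]
      have h13 : ‖eval (oe (Z u) (fun i => cc i + u i)) β0‖ * X *
          ‖eval (fun i => cc i + u i) (ρ1 * ρ2)‖ ≤ T ^ (E * Dβ) * X * T ^ (E * D12) := by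
        gcongr
      calc T ^ (E * |D1|) * (‖eval (oe (Z u) (fun i => cc i + u i)) β0‖ * X *
            ‖eval (fun i => cc i + u i) (ρ1 * ρ2)‖)
          ≤ T ^ (E * |D1|) * (T ^ (E * Dβ) * X * T ^ (E * D12)) := by gcongr
        _ = T ^ (E * |D1|) * T ^ (E * Dβ) * T ^ (E * D12) * X := by ring
    have h14 : 1 ≤ T * (m3 / 2) := by
      have h15 : 2 / m3 ≤ T := g4.trans hlT
      rw [div_le_iff₀ hm3] at h15
      linarith
    have h16 : 1 ≤ T ^ (E * |D1| + E * Dβ + E * D12 + 1) * X := by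
      calc (1 : ℝ) ≤ T * (m3 / 2) := h14
        _ ≤ T * (T ^ (E * |D1| + E * Dβ + E * D12) * X) := by gcongr
        _ = T ^ (E * |D1| + E * Dβ + E * D12 + 1) * X := by
            rw [Real.rpow_add_one hT0.ne' (E * |D1| + E * Dβ + E * D12)]
            ring
    rw [Real.rpow_neg hT0.le, inv_le_iff_one_le_mul₀ (by positivity)]
    refine h16.trans ?_
    rw [mul_comm X]
    refine mul_le_mul_of_nonneg_right ?_ hX0
    apply Real.rpow_le_rpow_of_exponent_le hT1
    rw [hDD]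
    linarith

end Pool.Agent.H788.FH
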